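import Pool.Agent.H66.L.T2aa45f1a.Q182.OT1

/-!
# Lifts of circle diffeomorphisms: transversality of the periodic points and Lyapunov functions
-/

set_option autoImplicit false

open Filter Set Topology MeasureTheory

namespace Pool.Agent.Q182.CC

open Pool.Agent.Q182.OT (sh)

/-- lifts of orientation preserving circle diffeomorphisms of class `C¹` -/
structure Lift (f : ℝ → ℝ) : Prop where
  cd : ContDiff ℝ 1 f
  pos : ∀ t, 0 < deriv f t
  one : ∀ t, f (t + 1) = f t + 1

/-- the points with `f^q(t) = t + p` exist and are nondegenerate -/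
def Good (q : ℕ) (p : ℤ) (f : ℝ → ℝ) : Prop :=
  1 ≤ q ∧ (∃ t, f^[q] t = t + p) ∧ ∀ t, f^[q] t = t + p → deriv (f^[q]) t ≠ 1

theorem Lift.cont {f : ℝ → ℝ} (hf : Lift f) : Continuous f := hf.cd.continuous

theorem Lift.diff {f : ℝ → ℝ} (hf : Lift f) : Differentiable ℝ f := hf.cd.differentiable one_ne_zero

theorem Lift.mono {f : ℝ → ℝ} (hf : Lift f) : StrictMono f := strictMono_of_deriv_pos hf.pos

theorem Lift.comp {f g : ℝ → ℝ} (hf : Lift f) (hg : Lift g) : Lift (f ∘ g) where
  cd := hf.cd.comp hg.cd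
  pos t := by
    have h1 := (hf.diff (g t)).hasDerivAt.comp t (hg.diff t).hasDerivAt
    rw [h1.deriv]
    exact mul_pos (hf.pos _) (hg.pos _)
  one t := by
    show f (g (t + 1)) = f (g t) + 1
    rw [hg.one, hf.one]

theorem lift_id : Lift id where
  cd := contDiff_id
  pos t := by simp
  one t := rfl

theorem lift_add (s : ℝ) : Lift (fun t => t + s) where
  cd := contDiff_id.add contDiff_const
  pos t := by
    have h : HasDerivAt (fun t : ℝ => t + s) 1 t := (hasDerivAt_id t).add_const s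
    rw [h.deriv]
    exact one_pos
  one t := by ring

theorem Lift.iter {f : ℝ → ℝ} (hf : Lift f) (q : ℕ) : Lift (f^[q]) := by
  induction q with
  | zero => exact lift_id
  | succ q ih => exact ih.comp hf

theorem Lift.sh {f : ℝ → ℝ} (hf : Lift f) (s : ℝ) : Lift (sh f s) := hf.comp (lift_add s)

theorem Lift.bound {f : ℝ → ℝ} (hf : Lift f) : ∃ κ, 0 < κ ∧ ∀ t, κ ≤ deriv f t := by
  have hc : Continuous (deriv f) := hf.cd.continuous_deriv le_rfl
  have hp : ∀ t, deriv f (t + 1) = deriv f t := by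
    intro t
    have h1 : HasDerivAt (fun t => f (t + 1)) (deriv f (t + 1)) t := by
      have h3 : HasDerivAt (fun t : ℝ => t + 1) 1 t := (hasDerivAt_id t).add_const (1 : ℝ)
      have := (hf.diff (t + 1)).hasDerivAt.comp t h3
      rw [mul_one] at this
      exact this
    have h2 : HasDerivAt (fun t => f (t + 1)) (deriv f t) t := by
      have : (fun t => f (t + 1)) = fun t => f t + 1 := funext hf.one
      rw [this]
      exact (hf.diff t).hasDerivAt.add_const 1
    exact h1.unique h2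
  obtain ⟨t0, -, ht0⟩ := (isCompact_Icc (a := (0 : ℝ)) (b := 1)).exists_isMinOn
    (nonempty_Icc.2 zero_le_one) hc.continuousOn
  refine ⟨deriv f t0, hf.pos t0, fun t => ?_⟩
  have h1 : deriv f (Int.fract t) = deriv f t := by
    have h2 := OT.add_int (f := fun t => deriv f t + t) (fun t => by
      show deriv f (t + 1) + (t + 1) = deriv f t + t + 1
      rw [hp]
      ring) ⌊t⌋ (Int.fract t)
    have h3 : Int.fract t + (⌊t⌋ : ℝ) = t := Int.fract_add_floor t
    rw [h3] at h2
    linarith [Int.fract_add_floor t]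
  rw [← h1]
  exact ht0 ⟨Int.fract_nonneg _, (Int.fract_lt_one _).le⟩

theorem growth {f : ℝ → ℝ} (hf : Lift f) {κ : ℝ} (hκ : ∀ t, κ ≤ deriv f t) (q : ℕ) {s s' : ℝ}
    (hs : s ≤ s') (t : ℝ) :
    κ * (s' - s) ≤ (sh f s')^[q + 1] t - (sh f s)^[q + 1] t := by
  have h1 : ∀ k : ℕ, (sh f s)^[k] t ≤ (sh f s')^[k] t := by
    intro k
    induction k with
    | zero => exact le_rfl
    | succ k ih =>
      rw [Function.iterate_succ_apply', Function.iterate_succ_apply']
      exact hf.mono.monotone (add_le_add ih hs)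
  rw [Function.iterate_succ_apply', Function.iterate_succ_apply']
  have h2 := mul_sub_le_image_sub_of_le_deriv hf.diff hκ
    (show (sh f s)^[q] t + s ≤ (sh f s)^[q] t + s' by linarith)
  have h3 : f ((sh f s)^[q] t + s') ≤ f ((sh f s')^[q] t + s') :=
    hf.mono.monotone (add_le_add (h1 q) le_rfl)
  show κ * (s' - s) ≤ f ((sh f s')^[q] t + s') - f ((sh f s)^[q] t + s)
  have e : (sh f s)^[q] t + s' - ((sh f s)^[q] t + s) = s' - s := by ring
  rw [e] at h2
  linarith

/-- Sard: almost all shifts have nondegenerate periodic points. -/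
theorem sard {f : ℝ → ℝ} (hf : Lift f) (q : ℕ) (p : ℤ) :
    volume {s | ∃ t, (sh f s)^[q + 1] t = t + p ∧ deriv ((sh f s)^[q + 1]) t = 1} = 0 := by
  classical
  obtain ⟨κ, hκ0, hκ⟩ := hf.bound
  have hgr : ∀ s s' t, κ * |s' - s| ≤ |(sh f s')^[q + 1] t - (sh f s)^[q + 1] t| := by
    intro s s' t
    rcases le_total s s' with h | h
    · have h1 := growth hf hκ q h t
      rw [abs_of_nonneg (sub_nonneg.2 h)]
      exact h1.trans (le_abs_self _)
    · have h1 := growth hf hκ q h t
      rw [abs_of_nonpos (sub_nonpos.2 h), neg_sub, abs_sub_comm]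
      exact h1.trans (le_abs_self _)
  set T : Set ℝ := {t | ∃ s, (sh f s)^[q + 1] t = t + p ∧ deriv ((sh f s)^[q + 1]) t = 1} with hT
  set τ : ℝ → ℝ := fun t => if h : ∃ s, (sh f s)^[q + 1] t = t + p ∧
    deriv ((sh f s)^[q + 1]) t = 1 then h.choose else 0 with hτ
  have hτT : ∀ t ∈ T, (sh f (τ t))^[q + 1] t = t + p ∧ deriv ((sh f (τ t))^[q + 1]) t = 1 := by
    intro t ht
    have h1 : τ t = (show ∃ s, (sh f s)^[q + 1] t = t + p ∧
      deriv ((sh f s)^[q + 1]) t = 1 from ht).choose := dif_pos ht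
    rw [h1]
    exact (show ∃ s, (sh f s)^[q + 1] t = t + p ∧
      deriv ((sh f s)^[q + 1]) t = 1 from ht).choose_spec
  have hsub : {s | ∃ t, (sh f s)^[q + 1] t = t + p ∧ deriv ((sh f s)^[q + 1]) t = 1} ⊆ τ '' T := by
    rintro s ⟨t, ht1, ht2⟩
    have htT : t ∈ T := ⟨s, ht1, ht2⟩
    refine ⟨t, htT, ?_⟩
    have h1 := hgr s (τ t) t
    rw [(hτT t htT).1, ht1, sub_self, abs_zero] at h1
    have h2 : |τ t - s| ≤ 0 := by
      by_contra hcon
      push Not at hcon
      have := mul_pos hκ0 hcon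
      linarith
    have h3 := abs_eq_zero.1 (le_antisymm h2 (abs_nonneg _))
    linarith
  refine measure_mono_null hsub ?_
  refine addHaar_image_eq_zero_of_det_fderivWithin_eq_zero (μ := volume)
    (f' := fun _ => (0 : ℝ →L[ℝ] ℝ)) ?_ ?_
  · intro t ht
    have h1 : HasDerivAt (fun u => (sh f (τ t))^[q + 1] u - u - p) 0 t := by
      have h2 := (((hf.sh (τ t)).iter (q + 1)).diff t).hasDerivAt
      rw [(hτT t ht).2] at h2
      have h3 := (h2.sub (hasDerivAt_id t)).sub_const (p : ℝ)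
      rw [sub_self] at h3
      exact h3
    have h4 := h1.hasFDerivAt.isLittleO
    rw [hasFDerivWithinAt_iff_isLittleO]
    refine Asymptotics.IsBigO.trans_isLittleO (g := fun u : ℝ =>
      (sh f (τ t))^[q + 1] u - u - p - ((sh f (τ t))^[q + 1] t - t - p) -
        (ContinuousLinearMap.toSpanSingleton ℝ (0 : ℝ)) (u - t)) ?_ (h4.mono nhdsWithin_le_nhds)
    refine Asymptotics.IsBigO.of_bound κ⁻¹ ?_
    filter_upwards [self_mem_nhdsWithin] with u hu
    have h5 := hgr (τ t) (τ u) u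
    rw [(hτT u hu).1] at h5
    rw [Real.norm_eq_abs, Real.norm_eq_abs]
    have h6 : (sh f (τ t))^[q + 1] u - u - p - ((sh f (τ t))^[q + 1] t - t - p) -
        (ContinuousLinearMap.toSpanSingleton ℝ (0 : ℝ)) (u - t) =
        -(u + p - (sh f (τ t))^[q + 1] u) := by
      rw [(hτT t ht).1]
      simp
      ring
    rw [h6, abs_neg]
    show |τ u - τ t - 0| ≤ _
    rw [sub_zero, inv_mul_eq_div, le_div_iff₀ hκ0, mul_comm]
    exact h5
  · intro t _
    simp [ContinuousLinearMap.det]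

theorem exists_good_aux {f : ℝ → ℝ} (hf : Lift f) (q : ℕ) (p : ℤ) {a b : ℝ} (hab : a < b)
    (h : ∀ s ∈ Ioo a b, ∃ t, (sh f s)^[q + 1] t = t + p) :
    ∃ s ∈ Ioo a b, Good (q + 1) p (sh f s) := by
  by_contra hcon
  push Not at hcon
  have h1 : Ioo a b ⊆ {s | ∃ t, (sh f s)^[q + 1] t = t + p ∧ deriv ((sh f s)^[q + 1]) t = 1} := by
    intro s hs
    by_contra hc
    apply hcon s hs
    refine ⟨by omega, h s hs, fun t ht hd => hc ⟨t, ht, hd⟩⟩
  have h2 := measure_mono_null h1 (sard hf q p)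
  rw [Real.volume_Ioo] at h2
  rw [ENNReal.ofReal_eq_zero] at h2
  linarith

theorem exists_good {f : ℝ → ℝ} (hf : Lift f) (q : ℕ) (p : ℤ) {w u0 : ℝ}
    (hw : f^[q + 1] w = w + p) (hu : f^[q + 1] u0 ≠ u0 + p) {δ : ℝ} (hδ : 0 < δ) :
    ∃ s, |s| ≤ δ ∧ Good (q + 1) p (sh f s) := by
  obtain ⟨κ, hκ0, hκ⟩ := hf.bound
  have h0 : sh f 0 = f := by funext t; simp [sh]
  have hcs : ∀ t, Continuous fun s : ℝ => (sh f s)^[q + 1] t - t - p := by
    intro t
    have h1 := (OT.cont_iter f hf.cont 1 (q + 1)).comp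
      (Continuous.prodMk continuous_id (continuous_const (y := t)))
    have h2 : (fun s : ℝ => (sh f s)^[q + 1] t - t - p) =
        fun s : ℝ => ((fun x : ℝ × ℝ => (sh f (x.1 * 1))^[q + 1] x.2) ∘
          fun s : ℝ => (id s, t)) s - t - p := by
      funext s
      simp
    rw [h2]
    exact (h1.sub continuous_const).sub continuous_const
  have hct : ∀ s, Continuous fun t : ℝ => (sh f s)^[q + 1] t - t - p := fun s =>
    (((hf.sh s).iter (q + 1)).cont.sub continuous_id).sub continuous_const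
  have hz : ∀ s, (∃ t, (sh f s)^[q + 1] t - t - p ≤ 0) → (∃ t, 0 ≤ (sh f s)^[q + 1] t - t - p) →
      ∃ t, (sh f s)^[q + 1] t = t + p := by
    intro s h1 h2
    obtain ⟨t, ht⟩ := mem_range_of_exists_le_of_exists_ge (hct s) h1 h2
    exact ⟨t, by simp only at ht; linarith⟩
  rcases lt_or_gt_of_ne hu with h | h
  · have h1 : ∀ᶠ s in 𝓝 (0 : ℝ), (sh f s)^[q + 1] u0 - u0 - p < 0 := by
      refine (hcs u0).continuousAt.eventually (gt_mem_nhds ?_)
      show (sh f 0)^[q + 1] u0 - u0 - p < 0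
      rw [h0]
      linarith
    obtain ⟨ε, hε, hε'⟩ := Metric.eventually_nhds_iff.1 h1
    obtain ⟨s, hs, hg⟩ := exists_good_aux hf q p (a := 0) (b := min ε δ) (lt_min hε hδ) (by
      intro s hs
      apply hz s
      · refine ⟨u0, (hε' ?_).le⟩
        rw [Real.dist_eq, sub_zero, abs_of_pos hs.1]
        exact hs.2.trans_le (min_le_left _ _)
      · refine ⟨w, ?_⟩
        have h2 := growth hf hκ q hs.1.le w
        rw [h0, hw] at h2
        have h3 := mul_pos hκ0 hs.1
        linarith)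
    refine ⟨s, ?_, hg⟩
    rw [abs_of_pos hs.1]
    exact (hs.2.trans_le (min_le_right _ _)).le
  · have h1 : ∀ᶠ s in 𝓝 (0 : ℝ), 0 < (sh f s)^[q + 1] u0 - u0 - p := by
      refine (hcs u0).continuousAt.eventually (lt_mem_nhds ?_)
      show 0 < (sh f 0)^[q + 1] u0 - u0 - p
      rw [h0]
      linarith
    obtain ⟨ε, hε, hε'⟩ := Metric.eventually_nhds_iff.1 h1
    obtain ⟨s, hs, hg⟩ := exists_good_aux hf q p (a := -min ε δ) (b := 0)
      (by linarith [lt_min hε hδ]) (by
      intro s hs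
      apply hz s
      · refine ⟨w, ?_⟩
        have h2 := growth hf hκ q hs.2.le w
        rw [h0, hw] at h2
        have h3 := mul_pos hκ0 (show 0 < 0 - s by linarith [hs.2])
        linarith
      · refine ⟨u0, (hε' ?_).le⟩
        rw [Real.dist_eq, sub_zero, abs_of_neg hs.2]
        linarith [hs.1, min_le_left ε δ])
    refine ⟨s, ?_, hg⟩
    rw [abs_of_neg hs.2]
    linarith [hs.1, min_le_right ε δ]

end Pool.Agent.Q182.CC
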