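import Mathlib

/-!
# Lifts of circle maps: touching parameters and convergence
-/

set_option autoImplicit false

open Filter Set Topology

namespace Pool.Agent.Q182.OT

/-- `f` precomposed with the translation by `s` -/
def sh (f : ℝ → ℝ) (s : ℝ) : ℝ → ℝ := fun t => f (t + s)

theorem iter_add {f : ℝ → ℝ} (h1 : ∀ t, f (t + 1) = f t + 1) (q : ℕ) (t : ℝ) :
    f^[q] (t + 1) = f^[q] t + 1 := by
  induction q generalizing t with
  | zero => rfl
  | succ q ih => rw [Function.iterate_succ_apply, Function.iterate_succ_apply, h1, ih]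

theorem add_nat {f : ℝ → ℝ} (h1 : ∀ t, f (t + 1) = f t + 1) (k : ℕ) (t : ℝ) :
    f (t + k) = f t + k := by
  induction k with
  | zero => simp
  | succ k ih => push_cast; rw [← add_assoc, h1, ih, add_assoc]

theorem add_int {f : ℝ → ℝ} (h1 : ∀ t, f (t + 1) = f t + 1) (k : ℤ) (t : ℝ) :
    f (t + k) = f t + k := by
  rcases Int.eq_nat_or_neg k with ⟨a, rfl | rfl⟩
  · exact_mod_cast add_nat h1 a t
  · have h := add_nat h1 a (t + ((-(a : ℤ) : ℤ) : ℝ))
    have e : t + ((-(a : ℤ) : ℤ) : ℝ) + (a : ℝ) = t := by push_cast; ring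
    rw [e] at h
    rw [h]
    push_cast
    ring

theorem cont_iter (f : ℝ → ℝ) (hc : Continuous f) (s1 : ℝ) (q : ℕ) :
    Continuous (fun x : ℝ × ℝ => (sh f (x.1 * s1))^[q] x.2) := by
  induction q with
  | zero => exact continuous_snd
  | succ q ih =>
    have e : (fun x : ℝ × ℝ => (sh f (x.1 * s1))^[q + 1] x.2) =
        fun x : ℝ × ℝ => f ((sh f (x.1 * s1))^[q] x.2 + x.1 * s1) := by
      funext x
      rw [Function.iterate_succ_apply']
      rfl
    rw [e]
    exact hc.comp (ih.add (continuous_fst.mul continuous_const))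

theorem touch_aux (g : ℝ → ℝ → ℝ) (hg : Continuous (Function.uncurry g))
    (hper : ∀ u t, g u (t + 1) = g u t) (h0 : ∀ t, g 0 t < 0) (h1 : ∃ t, 0 ≤ g 1 t) :
    ∃ u, 0 ≤ u ∧ u ≤ 1 ∧ ∃ t, g u t = 0 ∧ ∀ t', g u t' ≤ 0 := by
  have hperz : ∀ u (z : ℤ) t, g u (t + z) = g u t := by
    intro u z t
    have h := add_int (f := fun t => g u t + t) (fun t => by show g u (t+1) + (t+1) = g u t + t + 1; rw [hper]; ring) z t
    linarith
  have hfr : ∀ u t, g u (Int.fract t) = g u t := by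
    intro u t
    have h := hperz u ⌊t⌋ (Int.fract t)
    rw [add_comm (Int.fract t), Int.floor_add_fract] at h
    exact h.symm
  set M : ℝ → ℝ := fun u => sSup (g u '' Icc 0 1) with hM
  have hMc : Continuous M := isCompact_Icc.continuous_sSup hg
  have hgu : ∀ u, Continuous (g u) := fun u => hg.comp (Continuous.prodMk_right u)
  have hmax : ∀ u, ∃ t ∈ Icc (0 : ℝ) 1, g u t = M u ∧ ∀ t' ∈ Icc (0 : ℝ) 1, g u t' ≤ M u := by
    intro u
    obtain ⟨t, ht, h1, h2⟩ := isCompact_Icc.exists_sSup_image_eq_and_ge (nonempty_Icc.2 zero_le_one)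
      (hgu u).continuousOn
    exact ⟨t, ht, h1.symm, fun t' ht' => by rw [hM]; simp only; rw [h1]; exact h2 t' ht'⟩
  have hM0 : M 0 < 0 := by
    obtain ⟨t, ht, h1, h2⟩ := hmax 0
    rw [← h1]
    exact h0 t
  have hM1 : 0 ≤ M 1 := by
    obtain ⟨t, ht, h1', h2⟩ := hmax 1
    obtain ⟨t1, ht1⟩ := h1
    have := h2 (Int.fract t1) ⟨Int.fract_nonneg _, (Int.fract_lt_one _).le⟩
    rw [hfr] at this
    linarith
  obtain ⟨u, hu, hu0⟩ := intermediate_value_Icc (zero_le_one' ℝ) hMc.continuousOn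
    (show (0 : ℝ) ∈ Icc (M 0) (M 1) from ⟨hM0.le, hM1⟩)
  obtain ⟨t, ht, h1', h2⟩ := hmax u
  refine ⟨u, hu.1, hu.2, t, by rw [h1', hu0], fun t' => ?_⟩
  have := h2 (Int.fract t') ⟨Int.fract_nonneg _, (Int.fract_lt_one _).le⟩
  rw [hfr, hu0] at this
  exact this

theorem near_return (f : ℝ → ℝ) {s0 : ℝ} (hs0 : 0 < s0) :
    ∃ (w : ℝ) (q : ℕ) (p : ℤ), 1 ≤ q ∧ |f^[q] w - w - p| < s0 := by
  obtain ⟨K, hK⟩ := exists_nat_gt (1 / s0)
  have hK0 : (0 : ℝ) < K := lt_trans (by positivity) hK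
  have hKpos : 0 < K := by exact_mod_cast hK0
  have hb : ∀ i : ℕ, ⌊Int.fract (f^[i] 0) * K⌋₊ < K := by
    intro i
    rw [Nat.floor_lt (mul_nonneg (Int.fract_nonneg _) hK0.le)]
    calc Int.fract (f^[i] 0) * K < 1 * K := by
          apply mul_lt_mul_of_pos_right (Int.fract_lt_one _) hK0
      _ = K := one_mul _
  obtain ⟨i, j, hij, he⟩ := Finite.exists_ne_map_eq_of_infinite
    (fun i : ℕ => (⟨⌊Int.fract (f^[i] 0) * K⌋₊, hb i⟩ : Fin K))
  have key : ∀ i j : ℕ, i < j → ⌊Int.fract (f^[i] 0) * K⌋₊ = ⌊Int.fract (f^[j] 0) * K⌋₊ →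
      ∃ (w : ℝ) (q : ℕ) (p : ℤ), 1 ≤ q ∧ |f^[q] w - w - p| < s0 := by
    intro i j hij he
    refine ⟨f^[i] 0, j - i, ⌊f^[j] 0⌋ - ⌊f^[i] 0⌋, by omega, ?_⟩
    have e1 : f^[j - i] (f^[i] 0) = f^[j] 0 := by
      rw [← Function.iterate_add_apply]
      congr 1
      omega
    rw [e1]
    have e2 : f^[j] 0 - f^[i] 0 - ((⌊f^[j] 0⌋ - ⌊f^[i] 0⌋ : ℤ) : ℝ) =
        Int.fract (f^[j] 0) - Int.fract (f^[i] 0) := by
      push_cast
      rw [Int.fract, Int.fract]
      ring
    rw [e2]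
    have f1 := Nat.floor_le (mul_nonneg (Int.fract_nonneg (f^[i] 0)) hK0.le)
    have f2 := Nat.lt_floor_add_one (Int.fract (f^[i] 0) * K)
    have f3 := Nat.floor_le (mul_nonneg (Int.fract_nonneg (f^[j] 0)) hK0.le)
    have f4 := Nat.lt_floor_add_one (Int.fract (f^[j] 0) * K)
    rw [he] at f1 f2
    have f5 : |(Int.fract (f^[j] 0) - Int.fract (f^[i] 0)) * K| < 1 := by
      rw [sub_mul, abs_lt]
      constructor <;> linarith
    rw [abs_mul, abs_of_pos hK0] at f5
    have f6 : 1 < s0 * K := by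
      rw [div_lt_iff₀ hs0] at hK
      linarith
    exact lt_of_mul_lt_mul_right (f5.trans f6) hK0.le
  rcases lt_or_gt_of_ne hij with h | h
  · exact key i j h (by simpa using congrArg Fin.val he)
  · exact key j i h (by simpa using (congrArg Fin.val he).symm)

theorem exists_per {f : ℝ → ℝ} (hc : Continuous f) (hm : StrictMono f) {s0 : ℝ} (hs0 : 0 < s0) :
    ∃ q : ℕ, 1 ≤ q ∧ ∃ s, |s| ≤ s0 ∧ ∃ (p : ℤ) (t : ℝ), (sh f s)^[q] t = t + p := by
  obtain ⟨w, q, p, hq, h⟩ := near_return f hs0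
  set A : ℝ → ℝ → ℝ := fun σ t => f t + σ with hA
  have hAm : ∀ σ, 0 ≤ σ → ∀ i, f^[i] w ≤ (A σ)^[i] w := by
    intro σ hσ i
    induction i with
    | zero => exact le_rfl
    | succ i ih =>
      rw [Function.iterate_succ_apply', Function.iterate_succ_apply']
      have := hm.monotone ih
      show f (f^[i] w) ≤ f ((A σ)^[i] w) + σ
      linarith
  have hAm' : ∀ σ, σ ≤ 0 → ∀ i, (A σ)^[i] w ≤ f^[i] w := by
    intro σ hσ i
    induction i with
    | zero => exact le_rfl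
    | succ i ih =>
      rw [Function.iterate_succ_apply', Function.iterate_succ_apply']
      have := hm.monotone ih
      show f ((A σ)^[i] w) + σ ≤ f (f^[i] w)
      linarith
  have hcont : Continuous (fun σ => (A σ)^[q] w) := by
    have : ∀ q : ℕ, Continuous (fun σ => (A σ)^[q] w) := by
      intro q
      induction q with
      | zero => exact continuous_const
      | succ q ih =>
        have e : (fun σ => (A σ)^[q + 1] w) = fun σ => f ((A σ)^[q] w) + σ := by
          funext σ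
          rw [Function.iterate_succ_apply']
        rw [e]
        exact (hc.comp ih).add continuous_id
    exact this q
  obtain ⟨q', rfl⟩ : ∃ q', q = q' + 1 := ⟨q - 1, by omega⟩
  have hup : w + p ≤ (A s0)^[q' + 1] w := by
    rw [Function.iterate_succ_apply']
    have h1 := hm.monotone (hAm s0 hs0.le q')
    have h2 : f (f^[q'] w) = f^[q' + 1] w := (Function.iterate_succ_apply' _ _ _).symm
    have h3 := (abs_lt.1 h).1
    show w + p ≤ f ((A s0)^[q'] w) + s0
    linarith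
  have hdn : (A (-s0))^[q' + 1] w ≤ w + p := by
    rw [Function.iterate_succ_apply']
    have h1 := hm.monotone (hAm' (-s0) (by linarith) q')
    have h2 : f (f^[q'] w) = f^[q' + 1] w := (Function.iterate_succ_apply' _ _ _).symm
    have h3 := (abs_lt.1 h).2
    show f ((A (-s0))^[q'] w) + -s0 ≤ w + p
    linarith
  obtain ⟨σ, hσ, hσe⟩ := intermediate_value_Icc (by linarith : -s0 ≤ s0) hcont.continuousOn
    (show w + p ∈ Icc _ _ from ⟨hdn, hup⟩)
  refine ⟨q' + 1, hq, σ, abs_le.2 hσ, p, w - σ, ?_⟩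
  have hsc : Function.Semiconj (fun t => t - σ) (A σ) (sh f σ) := by
    intro t
    show f t + σ - σ = f (t - σ + σ)
    rw [add_sub_cancel_right, sub_add_cancel]
  have h5 := (hsc.iterate_right (q' + 1)) w
  rw [← h5]
  have h6 : (A σ)^[q' + 1] w = w + p := hσe
  show (A σ)^[q' + 1] w - σ = w - σ + p
  rw [h6]
  ring

theorem touch {f : ℝ → ℝ} (hc : Continuous f) (hm : StrictMono f)
    (h1 : ∀ t, f (t + 1) = f t + 1)
    (hn : ∀ q : ℕ, 1 ≤ q → ∀ (p : ℤ) (t : ℝ), f^[q] t ≠ t + p) {s0 : ℝ} (hs0 : 0 < s0) :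
    ∃ s, |s| ≤ s0 ∧ ∃ q : ℕ, 1 ≤ q ∧ ∃ (p : ℤ) (t : ℝ), (sh f s)^[q] t = t + p ∧
      ((∀ u, (sh f s)^[q] u ≤ u + p) ∨ (∀ u, u + p ≤ (sh f s)^[q] u)) ∧
      ∀ a, 1 ≤ a → a < q → ∀ z : ℤ, (sh f s)^[a] t ≠ t + z := by
  classical
  have hex := exists_per hc hm hs0
  set q := Nat.find hex with hq
  obtain ⟨hq1, s1, hs1, p, t1, ht1⟩ := Nat.find_spec hex
  rw [← hq] at hq1 ht1
  have hmin : ∀ a, 1 ≤ a → a < q → ∀ s, |s| ≤ s0 → ∀ t, ∀ z : ℤ, (sh f s)^[a] t ≠ t + z := by
    intro a ha haq s hs t z he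
    exact Nat.find_min hex haq ⟨ha, s, hs, z, t, he⟩
  set g : ℝ → ℝ → ℝ := fun u t => (sh f (u * s1))^[q] t - t - p with hg
  have hgc : Continuous (Function.uncurry g) := by
    have e : Function.uncurry g = fun x : ℝ × ℝ => (sh f (x.1 * s1))^[q] x.2 - x.2 - p := by
      funext x
      rfl
    rw [e]
    exact ((cont_iter f hc s1 q).sub continuous_snd).sub continuous_const
  have hper : ∀ u t, g u (t + 1) = g u t := by
    intro u t
    simp only [hg]
    rw [iter_add (f := sh f (u * s1)) (fun t => by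
      show f (t + 1 + u * s1) = f (t + u * s1) + 1
      rw [← h1]
      congr 1
      ring)]
    ring
  have hg0 : ∀ t, g 0 t ≠ 0 := by
    intro t h
    apply hn q hq1 p t
    have e : sh f (0 * s1) = f := by
      funext t
      simp [sh]
    simp only [hg, e] at h
    linarith
  have hg1 : g 1 t1 = 0 := by
    simp only [hg, one_mul]
    rw [ht1]
    ring
  have hfin : ∀ u, 0 ≤ u → u ≤ 1 → |u * s1| ≤ s0 := by
    intro u hu0 hu1
    rw [abs_mul, abs_of_nonneg hu0]
    calc u * |s1| ≤ 1 * |s1| := mul_le_mul_of_nonneg_right hu1 (abs_nonneg _)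
      _ ≤ s0 := by rw [one_mul]; exact hs1
  have hsign : (∀ t, g 0 t < 0) ∨ (∀ t, 0 < g 0 t) := by
    by_contra hcon
    push Not at hcon
    obtain ⟨⟨a, ha⟩, ⟨b, hb⟩⟩ := hcon
    have hgu : Continuous (g 0) := hgc.comp (Continuous.prodMk_right 0)
    obtain ⟨x, hx⟩ := mem_range_of_exists_le_of_exists_ge hgu ⟨b, hb⟩ ⟨a, ha⟩
    exact hg0 x hx
  rcases hsign with hs | hs
  · obtain ⟨u, hu0, hu1, t, ht, htl⟩ := touch_aux g hgc hper hs ⟨t1, hg1.ge⟩
    refine ⟨u * s1, hfin u hu0 hu1, q, hq1, p, t, ?_, Or.inl fun x => ?_,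
      fun a ha haq z => hmin a ha haq _ (hfin u hu0 hu1) t z⟩
    · simp only [hg] at ht
      linarith
    · have := htl x
      simp only [hg] at this
      linarith
  · have hgc' : Continuous (Function.uncurry fun u t => - g u t) := hgc.neg
    obtain ⟨u, hu0, hu1, t, ht, htl⟩ := touch_aux (fun u t => - g u t) hgc'
      (fun u t => by rw [hper]) (fun t => by have := hs t; linarith)
      ⟨t1, by rw [hg1]; simp⟩
    refine ⟨u * s1, hfin u hu0 hu1, q, hq1, p, t, ?_, Or.inr fun x => ?_,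
      fun a ha haq z => hmin a ha haq _ (hfin u hu0 hu1) t z⟩
    · simp only [hg] at ht
      linarith
    · have := htl x
      simp only [hg] at this
      linarith

theorem conv {R : ℝ → ℝ} (hc : Continuous R) (hm : StrictMono R)
    (h1 : ∀ t, R (t + 1) = R t + 1) {t0 : ℝ} (h0 : R t0 = t0) (t : ℝ) :
    ∃ T, R T = T ∧ Tendsto (fun a => R^[a] t) atTop (𝓝 T) := by
  set k : ℤ := ⌊t - t0⌋ with hk
  have hfix : ∀ z : ℤ, R (t0 + z) = t0 + z := fun z => by rw [add_int h1, h0]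
  have hfixi : ∀ (z : ℤ) (a : ℕ), R^[a] (t0 + z) = t0 + z := fun z a =>
    Function.iterate_fixed (hfix z) a
  have hlo : t0 + k ≤ t := by
    have := Int.floor_le (t - t0)
    rw [← hk] at this
    linarith
  have hhi : t ≤ t0 + ((k + 1 : ℤ) : ℝ) := by
    have := (Int.lt_floor_add_one (t - t0)).le
    rw [← hk] at this
    push_cast
    linarith
  have hlo' : ∀ a, t0 + k ≤ R^[a] t := fun a => by
    have := (hm.monotone.iterate a) hlo
    rwa [hfixi] at this
  have hhi' : ∀ a, R^[a] t ≤ t0 + ((k + 1 : ℤ) : ℝ) := fun a => by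
    have := (hm.monotone.iterate a) hhi
    rwa [hfixi] at this
  have hlim : ∃ T, Tendsto (fun a => R^[a] t) atTop (𝓝 T) := by
    rcases le_total t (R t) with h | h
    · exact ⟨_, tendsto_atTop_ciSup (hm.monotone.monotone_iterate_of_le_map h)
        ⟨t0 + ((k + 1 : ℤ) : ℝ), by rintro _ ⟨a, rfl⟩; exact hhi' a⟩⟩
    · exact ⟨_, tendsto_atTop_ciInf (hm.monotone.antitone_iterate_of_map_le h)
        ⟨t0 + k, by rintro _ ⟨a, rfl⟩; exact hlo' a⟩⟩
  obtain ⟨T, hT⟩ := hlim
  exact ⟨T, isFixedPt_of_tendsto_iterate hT hc.continuousAt, hT⟩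

theorem deg {f h : ℝ → ℝ} (hfh : ∀ t, f (h t) = t) (hhf : ∀ t, h (f t) = t)
    (hf1 : ∀ t, ∃ z : ℤ, f (t + 1) = f t + z) (hh1 : ∀ t, ∃ z : ℤ, h (t + 1) = h t + z)
    (hm : StrictMono f) (t : ℝ) : f (t + 1) = f t + 1 := by
  obtain ⟨z, hz⟩ := hf1 t
  have h1 : f t < f (t + 1) := hm (by linarith)
  have hz1 : (0 : ℝ) < z := by linarith
  have hz1' : 0 < z := by exact_mod_cast hz1
  by_contra hne
  have hz2 : 1 < z := by
    rcases lt_or_eq_of_le (show 1 ≤ z by omega) with h | h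
    · exact h
    · exact absurd (by rw [hz, ← h]; simp) hne
  have hz3 : (1 : ℝ) < z := by exact_mod_cast hz2
  obtain ⟨z', hz'⟩ := hh1 (f t)
  rw [hhf] at hz'
  have h2 : f (h (f t + 1)) = f t + 1 := hfh _
  have h3 : t < h (f t + 1) := hm.lt_iff_lt.1 (by rw [h2]; linarith)
  have h4 : h (f t + 1) < t + 1 := hm.lt_iff_lt.1 (by rw [h2, hz]; linarith)
  rw [hz'] at h3 h4
  have h5 : (0 : ℝ) < z' := by linarith
  have h6 : (z' : ℝ) < 1 := by linarith
  have h5' : 0 < z' := by exact_mod_cast h5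
  have h6' : z' < 1 := by exact_mod_cast h6
  omega

theorem anti_fixed {f : ℝ → ℝ} (hc : Continuous f) (hm : StrictAnti f) : ∃ t, f t = t := by
  have hg : Continuous (fun t => f t - t) := hc.sub continuous_id
  obtain ⟨x, hx⟩ : (0 : ℝ) ∈ range (fun t => f t - t) := by
    apply mem_range_of_exists_le_of_exists_ge hg
    · refine ⟨max 0 (f 0), ?_⟩
      rcases le_total 0 (f 0) with h | h
      · rw [max_eq_right h]
        have := hm.antitone h
        linarith
      · rw [max_eq_left h]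
        linarith
    · refine ⟨min 0 (f 0), ?_⟩
      rcases le_total 0 (f 0) with h | h
      · rw [min_eq_left h]
        linarith
      · rw [min_eq_right h]
        have := hm.antitone h
        linarith
  exact ⟨x, by simp only at hx; linarith⟩

end Pool.Agent.Q182.OT
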